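import Mathlib
import Pool.Agent.Helper13.Hall.Defs
import Pool.Agent.Helper13.Hall.Global

/-! # MP_9d7cd1_nt: how many exceptions can Hall's conjecture have?

`nearPts X D` is the set of integral points `(x, y)` on the curves `y² = x³ + d` with
`0 < |d| ≤ D`, in the range `|d|^{2/3} ≤ x ≤ X`. -/

namespace Pool.Agent.Results.MP_9d7cd1_nt.Exceptions

open Pool.Agent.Helper13.Hall

/-- The integral points with `|d|^{2/3} ≤ x ≤ X` on all the curves `y² = x³ + d`, `0 < |d| ≤ D`,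
number at most `C_ε X^ε (X^{1/4} D^{1/6} + D^{2/3})`. -/
theorem result :
    ∀ ε : ℝ, 0 < ε → ∃ C : ℝ, ∀ X D : ℝ, 1 ≤ X → 1 ≤ D →
      (nearPts X D).Finite ∧ ((nearPts X D).ncard : ℝ) ≤
        C * X ^ ε * (X ^ (1 / 4 : ℝ) * D ^ (1 / 6 : ℝ) + D ^ (2 / 3 : ℝ)) := by
  intro ε hε
  obtain ⟨C, _, h⟩ := nearPts_count hε
  exact ⟨C, fun X D hX hD => ⟨nearPts_finite X D, h X D hX hD⟩⟩

end Pool.Agent.Results.MP_9d7cd1_nt.Exceptions
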