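import Mathlib
import Pool.Agent.Helper13.ZL.All

/-!
# A zero-one law for birational sections over number fields

`k` is a number field, `K/k` is a regular function field of one variable, `Ω` is an algebraic closure of
`K`, `kb` is the algebraic closure of `k` in `Ω` and `s` is a section of `Gal(Ω/K) → Gal(kb/k)`.  For every
nonzero `x ∈ Ω` fixed by `s` and every `N > 0` one has `x = b g^N` with `b ∈ k^×` and `g` fixed by `s`; the
class of `b` in `k^×/N` is well defined and these classes form the Kummer class `s^*(x)` in the completion of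
`k^×`.
-/

set_option autoImplicit false

namespace Pool.Agent.Results.MP_8312c9_nt.ZeroOneLaw

/-- `s` is a section of the birational Galois group of `K/k` (the hypotheses of S17615). -/
def IsSection {k K kb Ω : Type} [Field k] [Field K] [Field kb] [Field Ω] [Algebra k kb] [Algebra kb Ω]
    [Algebra K Ω] (s : (kb ≃ₐ[k] kb) →* (Ω ≃ₐ[K] Ω)) : Prop :=
  Continuous s ∧ ∀ (g : kb ≃ₐ[k] kb) (x : kb), s g (algebraMap kb Ω x) = algebraMap kb Ω (g x)

/-- `s` is geometric and arises from a unique rational point (the conclusion of S17615). -/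
def IsGeometric {k K kb Ω : Type} [Field k] [Field K] [Field kb] [Field Ω] [Algebra k K] [Algebra k kb]
    [Algebra K Ω] (s : (kb ≃ₐ[k] kb) →* (Ω ≃ₐ[K] Ω)) : Prop :=
  ∃! O : ValuationSubring K,
    O ≠ ⊤ ∧ (∀ c : k, algebraMap k K c ∈ O) ∧
    (∀ a ∈ O, ∃ c : k, O.valuation (a - algebraMap k K c) < 1) ∧
    ∃ W : ValuationSubring Ω, W.comap (algebraMap K Ω) = O ∧
      ∀ (g : kb ≃ₐ[k] kb) (x : Ω), (s g x ∈ W ↔ x ∈ W)

/-- The Kummer class `s^*(x)` is congruent to `1` modulo the finite place `v`: for every `n > 0` one has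
`x = b g^n` with `b ∈ k`, `b ≡ 1 mod v`, and `g` fixed by `s`. -/
def CongOne {k K kb Ω : Type} [Field k] [NumberField k] [Field K] [Field kb] [Field Ω] [Algebra k kb]
    [Algebra k Ω] [Algebra K Ω] (s : (kb ≃ₐ[k] kb) →* (Ω ≃ₐ[K] Ω))
    (v : IsDedekindDomain.HeightOneSpectrum (NumberField.RingOfIntegers k)) (x : Ω) : Prop :=
  ∀ n : ℕ, 0 < n → ∃ (b : k) (g : Ω), v.valuation k (b - 1) < 1 ∧ (∀ σ, s σ g = g) ∧
    x = algebraMap k Ω b * g ^ n

/-- Let `k` be a number field, `K/k` a regular function field of one variable and `s` a section. Then `s` is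
geometric (from a unique rational point) if and only if for some nonconstant `h ∈ K` the set of finite
places `v` of `k` with `s^*(h) ≡ 1 mod v` does not have Dirichlet density `0`; here `h` may also be taken in
the fixed field of `s`. -/
theorem result (k : Type) [Field k] [NumberField k]
    (K : Type) [Field K] [Algebra k K] (_hK : (⊤ : IntermediateField k K).FG)
    (htr : ∃ t : K, Transcendental k t ∧ Algebra.IsAlgebraic (IntermediateField.adjoin k {t}) K)
    (_hreg : ∀ x : K, IsAlgebraic k x → x ∈ (algebraMap k K).range)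
    (kb Ω : Type) [Field kb] [Field Ω] [Algebra k kb] [Algebra kb Ω] [Algebra k Ω] [Algebra K Ω]
    [IsScalarTower k kb Ω] [IsScalarTower k K Ω] [IsAlgClosure k kb] [IsAlgClosure K Ω]
    (s : (kb ≃ₐ[k] kb) →* (Ω ≃ₐ[K] Ω)) (hs : IsSection s) :
    (IsGeometric s ↔ ∃ h : K, h ∉ (algebraMap k K).range ∧
      ¬ NumberField.Set.HasDirichletDensity {v | CongOne s v (algebraMap K Ω h)} 0) ∧
    (IsGeometric s ↔ ∃ h : Ω, (∀ g, s g h = h) ∧ h ∉ (algebraMap k Ω).range ∧
      ¬ NumberField.Set.HasDirichletDensity {v | CongOne s v h} 0) := by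
  have : IsAlgClosed Ω := IsAlgClosure.isAlgClosed K
  have : Algebra.IsAlgebraic K Ω := IsAlgClosure.isAlgebraic
  exact Pool.Agent.Helper13.ZL.ztop Pool.Agent.Helper14.BSC.all_HEN Pool.Agent.Helper14.BSC.all_UNI
    Pool.Agent.Helper13.ZL.all_DLIB Pool.Agent.Helper13.ZL.all_ZLD htr s hs

end Pool.Agent.Results.MP_8312c9_nt.ZeroOneLaw
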